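import Mathlib

set_option autoImplicit false

open IntermediateField

namespace Pool.Agent.Results.MP_0cd237_al.SuperpositionLevels


/-- `cl k S` is the algebraic closure of `k(S)` inside `K`, that is, the set of elements of `K`
algebraic over `k(S)`. For `S = {t_1, ..., t_r}` this is the field `[t_1, ..., t_r]`. -/
def cl (k : Type*) {K : Type*} [Field k] [Field K] [Algebra k K] (S : Set K) :
    IntermediateField k K :=
  (algebraicClosure (IntermediateField.adjoin k S) K).restrictScalars k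

variable {k K : Type*} [Field k] [Field K] [Algebra k K]

lemma mem_cl {S : Set K} {a : K} :
    a ∈ cl k S ↔ IsAlgebraic (IntermediateField.adjoin k S) a := by
  unfold cl
  rw [IntermediateField.mem_restrictScalars, mem_algebraicClosure_iff]

lemma adjoin_le_cl (S : Set K) : IntermediateField.adjoin k S ≤ cl k S := by
  intro a ha
  rw [mem_cl]
  exact isAlgebraic_algebraMap (⟨a, ha⟩ : IntermediateField.adjoin k S)

lemma subset_cl (S : Set K) : S ⊆ (cl k S : Set K) := fun a ha =>
  adjoin_le_cl S (IntermediateField.subset_adjoin k S ha)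

/-- algebraic over a subfield of `cl` is in `cl`. -/
lemma mem_cl_of_algebraic {S : Set K} {L : IntermediateField k K} (hL : L ≤ cl k S) {a : K}
    (ha : IsAlgebraic L a) : a ∈ cl k S := by
  unfold cl
  rw [IntermediateField.mem_restrictScalars]
  have h1 : IsAlgebraic (algebraicClosure (IntermediateField.adjoin k S) K) a := by
    obtain ⟨p, hp0, hp⟩ := ha
    let i : L →+* (algebraicClosure (IntermediateField.adjoin k S) K) :=
      { toFun := fun x => ⟨x.1, hL x.2⟩
        map_one' := rfl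
        map_mul' := fun _ _ => rfl
        map_zero' := rfl
        map_add' := fun _ _ => rfl }
    refine ⟨p.map i, ?_, ?_⟩
    · rwa [Ne, Polynomial.map_eq_zero]
    · rw [Polynomial.aeval_def, Polynomial.eval₂_map]
      exact hp
  have h2 : IsAlgebraic (IntermediateField.adjoin k S) a :=
    isAlgebraic_trans_aux h1
  exact mem_algebraicClosure_iff.2 h2
where
  isAlgebraic_trans_aux {S : Set K} {a : K}
    (h1 : IsAlgebraic (algebraicClosure (IntermediateField.adjoin k S) K) a) :
    IsAlgebraic (IntermediateField.adjoin k S) a := by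
    exact IsAlgebraic.restrictScalars _ h1

lemma cl_le_of {S : Set K} {T : Set K} (h : S ⊆ (cl k T : Set K)) : cl k S ≤ cl k T := by
  intro a ha
  have h1 : IntermediateField.adjoin k S ≤ cl k T := by
    rw [IntermediateField.adjoin_le_iff]; exact h
  exact mem_cl_of_algebraic h1 (mem_cl.1 ha)

open scoped IntermediateField.algebraAdjoinAdjoin in
lemma isAlg_over_of_cl {S : Set K} (h : ∀ a : K, a ∈ cl k S) :
    Algebra.IsAlgebraic (Algebra.adjoin k S) K := by
  have h1 : Algebra.IsAlgebraic (IntermediateField.adjoin k S) K :=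
    ⟨fun a => mem_cl.1 (h a)⟩
  exact (IsFractionRing.comap_isAlgebraic_iff (A := Algebra.adjoin k S)
    (K := IntermediateField.adjoin k S) (C := K)).2 h1

lemma mem_cl_of_tb {ι : Type*} {x : ι → K} (hx : IsTranscendenceBasis k x) (a : K) :
    a ∈ cl k (Set.range x) := by
  rw [mem_cl]
  have := hx.isAlgebraic_field
  exact Algebra.IsAlgebraic.isAlgebraic a

/-- Lemma T. -/
lemma tb_of_alg {ι : Type*} [Finite ι] {x y : ι → K} (hx : IsTranscendenceBasis k x)
    (h : ∀ i, x i ∈ cl k (Set.range y)) : IsTranscendenceBasis k y := by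
  have h1 : ∀ a : K, a ∈ cl k (Set.range y) := by
    intro a
    have : cl k (Set.range x) ≤ cl k (Set.range y) := by
      apply cl_le_of
      rintro _ ⟨i, rfl⟩
      exact h i
    exact this (mem_cl_of_tb hx a)
  have := isAlg_over_of_cl h1
  apply Algebra.IsAlgebraic.isTranscendenceBasis_of_lift_le_trdeg_of_finite
  exact hx.lift_cardinalMk_eq_trdeg.le

/-- Lemma Aut. -/
lemma exists_aut {ι : Type*} [IsAlgClosed K] {v w : ι → K} (hv : IsTranscendenceBasis k v)
    (hw : IsTranscendenceBasis k w) : ∃ σ : K ≃ₐ[k] K, ∀ i, σ (v i) = w i := by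
  let _ := IsAlgClosed.isAlgClosure_of_transcendence_basis v hv
  let _ := IsAlgClosed.isAlgClosure_of_transcendence_basis w hw
  let e : Algebra.adjoin k (Set.range v) ≃ₐ[k] Algebra.adjoin k (Set.range w) :=
    hv.1.aevalEquiv.symm.trans hw.1.aevalEquiv
  let f : K ≃+* K := IsAlgClosure.equivOfEquiv K K e.toRingEquiv
  have hf : ∀ s : Algebra.adjoin k (Set.range v), f (s : K) = (e s : K) := by
    intro s
    exact IsAlgClosure.equivOfEquiv_algebraMap K K e.toRingEquiv s
  refine ⟨AlgEquiv.ofRingEquiv (f := f) ?_, ?_⟩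
  · intro r
    have := hf (algebraMap k _ r)
    rw [e.commutes] at this
    exact this
  · intro i
    have h1 := hf ⟨v i, Algebra.subset_adjoin ⟨i, rfl⟩⟩
    have h2 : e ⟨v i, Algebra.subset_adjoin ⟨i, rfl⟩⟩ = ⟨w i, Algebra.subset_adjoin ⟨i, rfl⟩⟩ := by
      have h3 : (⟨v i, Algebra.subset_adjoin ⟨i, rfl⟩⟩ : Algebra.adjoin k (Set.range v)) =
          hv.1.aevalEquiv (MvPolynomial.X i) := by
        apply Subtype.ext
        simp
      rw [h3]
      apply Subtype.ext
      simp [e]
    rw [h2] at h1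
    exact h1



lemma exists_move [IsAlgClosed K] (L : IntermediateField k K)
    (hL : ∀ a : K, IsAlgebraic L a) {a : K} (hsep : IsSeparable L a) (ha : a ∉ L) :
    ∃ σ : K ≃ₐ[k] K, (∀ y ∈ L, σ y = y) ∧ σ a ≠ a := by
  classical
  have h1 : Algebra.IsAlgebraic L K := ⟨hL⟩
  have h2 : IsAlgClosure L K := ⟨inferInstance, inferInstance⟩
  have h3 : Normal L K := IsAlgClosure.normal L K
  have hint : IsIntegral L a := (hL a).isIntegral
  obtain ⟨b, hb, hba⟩ : ∃ b : K, Polynomial.aeval b (minpoly L a) = 0 ∧ b ≠ a := by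
    by_contra hcon
    push Not at hcon
    apply ha
    have hcard : Fintype.card ((minpoly L a).rootSet K) = (minpoly L a).natDegree :=
      Polynomial.card_rootSet_eq_natDegree hsep (IsAlgClosed.splits _)
    have hsub : Subsingleton ((minpoly L a).rootSet K) := by
      constructor
      rintro ⟨u, hu⟩ ⟨v, hv⟩
      apply Subtype.ext
      rw [Polynomial.mem_rootSet] at hu hv
      exact (hcon u hu.2).trans (hcon v hv.2).symm
    have hle : (minpoly L a).natDegree ≤ 1 := by
      rw [← hcard]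
      exact Fintype.card_le_one_iff_subsingleton.2 hsub
    have hpos : 0 < (minpoly L a).natDegree := minpoly.natDegree_pos hint
    have h1' : (minpoly L a).natDegree = 1 := by omega
    rw [minpoly.natDegree_eq_one_iff] at h1'
    obtain ⟨c, hc⟩ := h1'
    rw [← hc]
    exact c.2
  have hmin : minpoly L b = minpoly L a :=
    (minpoly.eq_of_irreducible_of_monic (minpoly.irreducible hint) hb (minpoly.monic hint)).symm
  obtain ⟨σ, hσ⟩ := (Normal.minpoly_eq_iff_mem_orbit K).1 hmin
  refine ⟨σ.restrictScalars k, ?_, ?_⟩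
  · intro y hy
    exact σ.commutes ⟨y, hy⟩
  · intro h
    apply hba
    rw [← hσ]
    exact h

lemma fixed_pow_mem [IsAlgClosed K] (q : ℕ) [ExpChar k q] (E : IntermediateField k K)
    (hE : ∀ a : K, IsAlgebraic E a) {u : K}
    (hfix : ∀ σ : K ≃ₐ[k] K, (∀ y ∈ E, σ y = y) → σ u = u) :
    ∃ N, ∀ N', N ≤ N' → u ^ (q ^ N') ∈ E := by
  have h1 : Algebra.IsAlgebraic E K := ⟨hE⟩
  have h2 : ExpChar E q := expChar_of_injective_algebraMap (algebraMap k E).injective q
  have h2' : ExpChar (separableClosure E K) q :=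
    expChar_of_injective_algebraMap (algebraMap E (separableClosure E K)).injective q
  have h3 : IsPurelyInseparable (separableClosure E K) K := inferInstance
  obtain ⟨N, hN⟩ := (isPurelyInseparable_iff_pow_mem (separableClosure E K) q).1 h3 u
  obtain ⟨c, hc⟩ := hN
  have hsep : IsSeparable E (u ^ (q ^ N)) := by
    rw [← hc]
    exact c.2
  have hmem : u ^ (q ^ N) ∈ E := by
    by_contra hnot
    obtain ⟨σ, h4, h5⟩ := exists_move E hE hsep hnot
    apply h5
    rw [map_pow, hfix σ h4]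
  refine ⟨N, fun N' hN' => ?_⟩
  obtain ⟨d, rfl⟩ := Nat.exists_eq_add_of_le hN'
  rw [pow_add, pow_mul]
  exact pow_mem hmem _

/-- The field of fixed points of an automorphism. -/
def fixF (σ : K ≃ₐ[k] K) : IntermediateField k K where
  carrier := {a | σ a = a}
  mul_mem' := by
    intro a b ha hb
    simp only [Set.mem_ofPred_eq] at *
    rw [map_mul, ha, hb]
  add_mem' := by
    intro a b ha hb
    simp only [Set.mem_ofPred_eq] at *
    rw [map_add, ha, hb]
  algebraMap_mem' := by
    intro r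
    simp
  inv_mem' := by
    intro a ha
    simp only [Set.mem_ofPred_eq] at *
    rw [map_inv₀, ha]

lemma mem_fixF {σ : K ≃ₐ[k] K} {a : K} : a ∈ fixF σ ↔ σ a = a := Iff.rfl

lemma fix_mul {L : IntermediateField k K} {σ τ : K ≃ₐ[k] K} (h1 : L ≤ fixF σ) (h2 : L ≤ fixF τ) :
    L ≤ fixF (σ * τ) := by
  intro a ha
  rw [mem_fixF, AlgEquiv.mul_apply, mem_fixF.1 (h2 ha), mem_fixF.1 (h1 ha)]

lemma fix_inv {L : IntermediateField k K} {σ : K ≃ₐ[k] K} (h1 : L ≤ fixF σ) :
    L ≤ fixF σ⁻¹ := by
  intro a ha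
  rw [mem_fixF]
  have h := mem_fixF.1 (h1 ha)
  conv_lhs => rw [← h]
  exact σ.symm_apply_apply a

/-- conjugation. -/
lemma fix_conj {L : IntermediateField k K} {σ τ : K ≃ₐ[k] K} (h1 : L ≤ fixF σ)
    (h2 : ∀ y ∈ L, τ⁻¹ y ∈ L) :
    L ≤ fixF (τ * σ * τ⁻¹) := by
  intro a ha
  rw [mem_fixF, AlgEquiv.mul_apply, AlgEquiv.mul_apply, mem_fixF.1 (h1 (h2 a ha))]
  exact τ.apply_symm_apply a

lemma map_cl {S : Set K} {σ : K ≃ₐ[k] K} (h : S ⊆ (fixF σ : Set K)) {a : K} (ha : a ∈ cl k S) :
    σ a ∈ cl k S := by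
  rw [mem_cl] at *
  have h1 : IntermediateField.adjoin k S ≤ fixF σ := by
    rw [IntermediateField.adjoin_le_iff]; exact h
  let f : K →ₐ[IntermediateField.adjoin k S] K :=
    { (σ : K →+* K) with
      commutes' := by
        intro r
        exact mem_fixF.1 (h1 r.2) }
  exact ha.algHom f

/-- stability of the compositum. -/
lemma map_sup_mem {E E' C C' : IntermediateField k K} {σ : K ≃ₐ[k] K} (hE : ∀ a ∈ E, σ a ∈ E')
    (hC : ∀ a ∈ C, σ a ∈ C') {a : K} (ha : a ∈ E ⊔ C) : σ a ∈ E' ⊔ C' := by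
  have h1 : E.map (σ : K →ₐ[k] K) ≤ E' := by
    rintro _ ⟨b, hb, rfl⟩
    exact hE b hb
  have h2 : C.map (σ : K →ₐ[k] K) ≤ C' := by
    rintro _ ⟨b, hb, rfl⟩
    exact hC b hb
  have h3 : (E ⊔ C).map (σ : K →ₐ[k] K) ≤ E' ⊔ C' := by
    rw [IntermediateField.map_sup]
    exact sup_le_sup h1 h2
  exact h3 ⟨a, ha, rfl⟩


/-- The commutator argument. -/
lemma comm_arg {ι : Type*} (E : IntermediateField k K) (L : ι → IntermediateField k K)
    (hEL : ∀ a, E ≤ L a)
    (hst : ∀ a, ∀ σ : K ≃ₐ[k] K, E ≤ fixF σ → ∀ y ∈ L a, σ y ∈ L a)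
    (Rot Ref : (K ≃ₐ[k] K) → Prop)
    (hcomm : ∀ r h, Rot r → Ref h → Rot (r * h * r⁻¹ * h⁻¹))
    (hrot : ∃ g : K ≃ₐ[k] K, E ≤ fixF g ∧ Rot g)
    (s : Finset ι)
    (href : ∀ a ∈ s, ∃ g : K ≃ₐ[k] K, L a ≤ fixF g ∧ Ref g) :
    ∃ r : K ≃ₐ[k] K, E ≤ fixF r ∧ (∀ a ∈ s, L a ≤ fixF r) ∧ Rot r := by
  classical
  induction s using Finset.induction_on with
  | empty =>
    obtain ⟨g, h1, h2⟩ := hrot
    exact ⟨g, h1, by simp, h2⟩
  | insert b s hb ih =>
    obtain ⟨r, hrE, hrs, hrot'⟩ := ih (fun a ha => href a (Finset.mem_insert_of_mem ha))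
    obtain ⟨h, hhL, hhR⟩ := href b (Finset.mem_insert_self _ _)
    have hhE : E ≤ fixF h := (hEL b).trans hhL
    refine ⟨r * h * r⁻¹ * h⁻¹, ?_, ?_, hcomm r h hrot' hhR⟩
    · exact fix_mul (fix_mul (fix_mul hrE hhE) (fix_inv hrE)) (fix_inv hhE)
    · intro a ha
      rw [Finset.mem_insert] at ha
      rcases ha with rfl | ha
      · apply fix_mul _ (fix_inv hhL)
        apply fix_conj hhL
        intro y hy
        exact hst a _ (fix_inv hrE) y hy
      · have h1 : L a ≤ fixF (h * r⁻¹ * h⁻¹) := by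
          apply fix_conj (fix_inv (hrs a ha))
          intro y hy
          exact hst a _ (fix_inv hhE) y hy
        have h2 := fix_mul (hrs a ha) h1
        have h3 : r * (h * r⁻¹ * h⁻¹) = r * h * r⁻¹ * h⁻¹ := by group
        rw [h3] at h2
        exact h2

lemma mem_base_of_alg [IsAlgClosed k] {a : K} (h : IsIntegral k a) :
    ∃ b : k, algebraMap k K b = a := by
  have h1 := IsAlgClosed.degree_eq_one_of_irreducible k (minpoly.irreducible h)
  exact minpoly.mem_range_of_degree_eq_one k a h1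

lemma root_scalar [IsAlgClosed k] {a b : K} {m : ℕ} (hm : m ≠ 0) (hb : b ≠ 0)
    (h : a ^ m = b ^ m) : ∃ χ : k, χ ^ m = 1 ∧ a = algebraMap k K χ * b := by
  have h1 : (a / b) ^ m = 1 := by
    rw [div_pow, h, div_self (pow_ne_zero _ hb)]
  have h2 : IsIntegral k (a / b) := by
    refine ⟨Polynomial.X ^ m - 1, Polynomial.monic_X_pow_sub_C 1 hm, ?_⟩
    simp [h1]
  obtain ⟨χ, hχ⟩ := mem_base_of_alg h2
  refine ⟨χ, ?_, ?_⟩
  · apply (algebraMap k K).injective
    rw [map_pow, hχ, h1, map_one]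
  · rw [hχ]
    field_simp

/-- Join lemma. -/
lemma join_arg [IsAlgClosed K] {ι : Type*}
    (E : IntermediateField k K) (hEalg : ∀ a : K, IsAlgebraic E a)
    (L : ι → IntermediateField k K)
    (hEL : ∀ a, E ≤ L a)
    (hst : ∀ a, ∀ σ : K ≃ₐ[k] K, E ≤ fixF σ → ∀ y ∈ L a, σ y ∈ L a)
    (Rot Ref : (K ≃ₐ[k] K) → Prop)
    (hcomm : ∀ r h, Rot r → Ref h → Rot (r * h * r⁻¹ * h⁻¹))
    (hrot : ∃ g : K ≃ₐ[k] K, E ≤ fixF g ∧ Rot g)
    (z s : K) (hmove : ∀ r, Rot r → r z ≠ z) {m : ℕ} (hm : (m : k) ≠ 0) (hs0 : s ≠ 0)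
    (hs : s ^ m ∈ E)
    (hRef : ∀ σ : K ≃ₐ[k] K, E ≤ fixF σ → σ s ≠ s → Ref σ)
    (A : Finset ι) (hzA : z ∈ ⨆ a ∈ A, L a) : ∃ a ∈ A, s ∈ L a := by
  by_contra hcon
  push Not at hcon
  have href : ∀ a ∈ A, ∃ g : K ≃ₐ[k] K, L a ≤ fixF g ∧ Ref g := by
    intro a ha
    have hsep : IsSeparable (L a) s := by
      have h1 : Polynomial.aeval s (Polynomial.X ^ m - Polynomial.C (⟨s ^ m, hEL a hs⟩ : L a)) = 0 := by
        simp [Polynomial.aeval_def]
      have h2 : (Polynomial.X ^ m - Polynomial.C (⟨s ^ m, hEL a hs⟩ : L a)).Separable := by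
        apply Polynomial.separable_X_pow_sub_C
        · intro h0
          apply hm
          have : algebraMap k (L a) (m : k) = 0 := by
            rw [map_natCast]; exact h0
          exact (map_eq_zero_iff _ (algebraMap k (L a)).injective).1 this
        · intro h0
          have := congrArg Subtype.val h0
          exact pow_ne_zero m hs0 this
      exact h2.of_dvd (minpoly.dvd _ _ h1)
    obtain ⟨σ, h1, h2⟩ := exists_move (L a) (fun b => by
      obtain ⟨p, hp0, hp⟩ := hEalg b
      refine ⟨p.map (IntermediateField.inclusion (hEL a) : E →+* L a), ?_, ?_⟩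
      · rwa [Ne, Polynomial.map_eq_zero]
      · rw [Polynomial.aeval_def, Polynomial.eval₂_map]
        exact hp) hsep (hcon a ha)
    have hfix : L a ≤ fixF σ := fun y hy => mem_fixF.2 (h1 y hy)
    exact ⟨σ, hfix, hRef σ ((hEL a).trans hfix) h2⟩
  obtain ⟨r, hrE, hrA, hr⟩ := comm_arg E L hEL hst Rot Ref hcomm hrot A href
  have h6 : (⨆ a ∈ A, L a) ≤ fixF r := by
    apply iSup₂_le
    exact hrA
  exact hmove r hr (mem_fixF.1 (h6 hzA))

lemma mem_span_of_mem_sup {E : IntermediateField k K} {T : Set K} (hT : T ⊆ (E : Set K)) {a : K}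
    (ha : a ∈ E ⊔ cl k T) : a ∈ Submodule.span (cl k T) (E : Set K) := by
  have hL : IntermediateField.adjoin k T ≤ E := by
    rw [IntermediateField.adjoin_le_iff]; exact hT
  let E' : IntermediateField (IntermediateField.adjoin k T) K := IntermediateField.extendScalars hL
  let C' : IntermediateField (IntermediateField.adjoin k T) K :=
    algebraicClosure (IntermediateField.adjoin k T) K
  have h1 : E ⊔ cl k T ≤ (E' ⊔ C').restrictScalars k := by
    apply sup_le
    · intro b hb
      have h : b ∈ E' := hb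
      have h' : b ∈ E' ⊔ C' := (le_sup_left : E' ≤ E' ⊔ C') h
      exact h'
    · intro b hb
      have h : b ∈ C' := hb
      have h' : b ∈ E' ⊔ C' := (le_sup_right : C' ≤ E' ⊔ C') h
      exact h'
  have h2 : a ∈ (E' ⊔ C').toSubalgebra := h1 ha
  rw [IntermediateField.sup_toSubalgebra_of_isAlgebraic_right] at h2
  have h3 : a ∈ Subalgebra.toSubmodule (E'.toSubalgebra ⊔ C'.toSubalgebra) := h2
  rw [← Subalgebra.mul_toSubmodule] at h3
  refine Submodule.mul_induction_on h3 ?_ ?_
  · intro m hm n hn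
    have hn' : n ∈ cl k T := hn
    have hm' : m ∈ (E : Set K) := hm
    have h4 : m * n = (⟨n, hn'⟩ : cl k T) • m := by
      rw [IntermediateField.smul_def]
      simp [mul_comm]
    rw [h4]
    exact Submodule.smul_mem _ _ (Submodule.subset_span hm')
  · intro x y hx hy
    exact Submodule.add_mem _ hx hy


lemma semi_inv [IsAlgClosed k] [IsAlgClosed K] (q m : ℕ) [ExpChar k q] (hm : 2 ≤ m)
    (hqm : Nat.Coprime q m) (E : IntermediateField k K)
    (hEalg : ∀ a : K, IsAlgebraic E a) (T : Set K) (hT : T ⊆ (E : Set K)) (s : K) (hs0 : s ≠ 0)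
    (hs2 : s ^ m ∈ E) (hs : s ∈ E ⊔ cl k T) : ∃ e ∈ cl k T, e ≠ 0 ∧ e / s ∈ E := by
  classical
  have h1 := mem_span_of_mem_sup hT hs
  obtain ⟨b, hbE, hspan, hli⟩ := exists_linearIndependent (cl k T) (E : Set K)
  rw [← hspan] at h1
  rw [← Subtype.range_coe (s := b)] at h1
  rw [Finsupp.mem_span_range_iff_exists_finsupp] at h1
  obtain ⟨l, hl⟩ := h1
  have hl0 : l ≠ 0 := by
    rintro rfl
    simp at hl
    exact hs0 hl.symm
  obtain ⟨b0, hb0⟩ : ∃ b0, l b0 ≠ 0 := by
    by_contra hcon
    push Not at hcon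
    exact hl0 (Finsupp.ext hcon)
  have hb0' : (l b0 : K) ≠ 0 := by simpa using hb0
  have hfixed : ∀ σ : K ≃ₐ[k] K, (∀ y ∈ E, σ y = y) → σ ((l b0 : K) / s) = (l b0 : K) / s := by
    intro σ hσ
    have hfix : ∀ t ∈ T, σ t = t := fun t ht => hσ t (hT ht)
    have hC : ∀ c ∈ cl k T, σ c ∈ cl k T := fun c hc =>
      map_cl (fun t ht => mem_fixF.2 (hfix t ht)) hc
    obtain ⟨ε, hε, hεs⟩ : ∃ ε : k, ε ^ m = 1 ∧ σ s = algebraMap k K ε * s := by
      apply root_scalar (by omega) hs0
      rw [← map_pow]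
      exact hσ _ hs2
    let g : cl k T → cl k T := fun c => ⟨σ c, hC c c.2⟩
    have hg0 : g 0 = 0 := by
      apply Subtype.ext
      simp [g]
    let l' : b →₀ cl k T := l.mapRange g hg0
    have hsum1 : Finsupp.linearCombination (cl k T) ((↑) : b → K) l = s := by
      rw [Finsupp.linearCombination_apply]; exact hl
    have hsum2 : Finsupp.linearCombination (cl k T) ((↑) : b → K) l' = σ s := by
      rw [Finsupp.linearCombination_apply, Finsupp.sum_mapRange_index (by simp), ← hl, Finsupp.sum,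
        Finsupp.sum, map_sum]
      apply Finset.sum_congr rfl
      intro i _
      rw [IntermediateField.smul_def, IntermediateField.smul_def, smul_eq_mul, smul_eq_mul,
        map_mul, hσ i (hbE i.2)]
    have hsum3 : Finsupp.linearCombination (cl k T) ((↑) : b → K)
        ((algebraMap k (cl k T) ε) • l) = σ s := by
      rw [map_smul, hsum1, hεs, IntermediateField.smul_def, smul_eq_mul]
      rfl
    have heq : l' = (algebraMap k (cl k T) ε) • l := hli (hsum2.trans hsum3.symm)
    have h5 : σ (l b0 : K) = algebraMap k K ε * (l b0 : K) := by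
      have := DFunLike.congr_fun heq b0
      have h6 : g (l b0) = ε • l b0 := by
        simpa [l'] using this
      have h7 := congrArg (Subtype.val) h6
      rw [← Algebra.smul_def]
      exact h7
    have hε0 : algebraMap k K ε ≠ 0 := by
      intro h0
      have h1 : ε = 0 := by simpa using h0
      rw [h1, zero_pow (by omega)] at hε
      exact zero_ne_one hε
    rw [map_div₀, h5, hεs]
    field_simp
  obtain ⟨N, hN⟩ := fixed_pow_mem q E hEalg hfixed
  -- choose the exponent congruent to one modulo `m`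
  have hQ : ∃ Q j : ℕ, ((l b0 : K) / s) ^ Q ∈ E ∧ Q = m * j + 1 := by
    have h2 : (q ^ Nat.totient m) ^ N ≡ 1 ^ N [MOD m] := (Nat.ModEq.pow_totient hqm).pow N
    rw [one_pow, ← pow_mul] at h2
    have hpos : 0 < Nat.totient m := Nat.totient_pos.2 (by omega)
    have h3 : N ≤ Nat.totient m * N := Nat.le_mul_of_pos_left _ hpos
    have hq1 : 1 ≤ q ^ (Nat.totient m * N) := Nat.one_le_pow _ _ (expChar_pos k q)
    obtain ⟨j, hj⟩ := (Nat.modEq_iff_dvd' hq1).1 h2.symm
    exact ⟨q ^ (Nat.totient m * N), j, hN _ h3, by omega⟩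
  obtain ⟨Q, j, hQE, hQj⟩ := hQ
  refine ⟨(l b0 : K) ^ Q, pow_mem (l b0).2 _, pow_ne_zero _ hb0', ?_⟩
  have h8 : (l b0 : K) ^ Q / s = ((l b0 : K) / s) ^ Q * (s ^ m) ^ j := by
    rw [div_pow, hQj, pow_succ s, pow_mul s]
    field_simp
  rw [h8]
  exact mul_mem hQE (pow_mem hs2 _)

/-- degree count -/
lemma card_le_of_algIndep {q r : ℕ} {d : Fin q → K} (hd : AlgebraicIndependent k d)
    (t : Fin r → K) (h : ∀ i, d i ∈ cl k (Set.range t)) : q ≤ r := by
  let Mt := AlgebraicIndependent.matroid k K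
  have h1 : Mt.Indep (Set.range d) := by
    rw [AlgebraicIndependent.matroid_indep_iff]
    exact hd.to_subtype_range
  have h2 : Set.range d ⊆ Mt.closure (Set.range t) := by
    rintro _ ⟨i, rfl⟩
    rw [AlgebraicIndependent.matroid_closure_eq]
    have h3 := h i
    rw [mem_cl] at h3
    have h4 : IsAlgebraic (Algebra.adjoin k (Set.range t)) (d i) := by
      exact alg_aux h3
    exact h4
  have h3 := h1.encard_le_eRk_of_subset h2
  rw [Matroid.eRk_closure_eq] at h3
  have h4 : (Set.range d).encard ≤ (Set.range t).encard := h3.trans (Mt.eRk_le_encard _)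
  have h5 : (Set.range d).encard = q := by
    rw [← Set.image_univ, hd.injective.injOn.encard_image]
    simp
  have h6 : (Set.range t).encard ≤ r := by
    rw [← Set.image_univ]
    refine (Set.encard_image_le _ _).trans ?_
    simp
  rw [h5] at h4
  exact_mod_cast h4.trans h6
where
  alg_aux {S : Set K} {a : K} (h : IsAlgebraic (IntermediateField.adjoin k S) a) :
      IsAlgebraic (Algebra.adjoin k S) a := by
    open scoped IntermediateField.algebraAdjoinAdjoin in
    exact (IsFractionRing.isAlgebraic_iff (Algebra.adjoin k S) (IntermediateField.adjoin k S) K).2 h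



/-- A nonempty sum of nonzero polynomials with distinct leading exponents is nonzero. -/
lemma sum_ne_zero_of_degree {σ R α : Type*} [Field R] (m : MonomialOrder σ) (s : Finset α)
    (hs : s.Nonempty) (f : α → MvPolynomial σ R) (h0 : ∀ a ∈ s, f a ≠ 0)
    (hinj : ∀ a ∈ s, ∀ b ∈ s, m.degree (f a) = m.degree (f b) → a = b) :
    ∑ a ∈ s, f a ≠ 0 := by
  obtain ⟨a, ha, hmax⟩ := s.exists_max_image (fun a => m.toSyn (m.degree (f a))) hs
  intro hsum
  have h1 := congrArg (MvPolynomial.coeff (m.degree (f a))) hsum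
  rw [MvPolynomial.coeff_sum, Finset.sum_eq_single_of_mem a ha] at h1
  · exact (m.leadingCoeff_ne_zero_iff.2 (h0 a ha)) h1
  · intro b hb hne
    apply m.coeff_eq_zero_of_lt
    exact lt_of_le_of_ne (hmax b hb) (fun h => hne (hinj b hb a ha (m.toSyn.injective h)))

/-- the parity matrix argument -/
lemma parity_inj {q e : ℕ} (he : 2 ≤ e) (t : Fin q → Fin q → ℤ) (δ : Fin q → ℤ)
    (h : ∀ l, δ l + (e : ℤ) * ∑ i, δ i * t i l = 0) : δ = 0 := by
  have : Fact (1 < e) := ⟨he⟩
  let A : Matrix (Fin q) (Fin q) ℤ := 1 + (e : ℤ) • Matrix.of t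
  have hdet : A.det ≠ 0 := by
    intro h0
    have h1 := congrArg (Int.castRingHom (ZMod e)) h0
    rw [RingHom.map_det, map_zero] at h1
    have h2 : (Int.castRingHom (ZMod e)).mapMatrix A = 1 := by
      ext i l
      simp only [A, RingHom.mapMatrix_apply, Matrix.map_apply, Matrix.add_apply, Matrix.smul_apply,
        Matrix.of_apply, smul_eq_mul, map_add, map_mul]
      have : (Int.castRingHom (ZMod e)) (e : ℤ) = 0 := by
        simp
      rw [this, zero_mul, add_zero]
      by_cases hil : i = l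
      · subst hil; simp
      · simp [Matrix.one_apply_ne hil]
    rw [h2, Matrix.det_one] at h1
    exact one_ne_zero h1
  apply Matrix.eq_zero_of_vecMul_eq_zero hdet
  ext l
  have h3 : Matrix.vecMul δ A l = δ l + (e : ℤ) * ∑ i, δ i * t i l := by
    simp only [A, Matrix.vecMul_add, Matrix.vecMul_one, Pi.add_apply, Matrix.vecMul_smul,
      Pi.smul_apply, smul_eq_mul]
    rfl
  rw [h3, h l]
  rfl

lemma algIndep_of_parity {n q e : ℕ} (he : 2 ≤ e) {y : Fin n → K} (hy : AlgebraicIndependent k y)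
    (j : Fin q → Fin n) (hj : Function.Injective j) (h : Fin q → K)
    (hE : ∀ i, h i ∈ IntermediateField.adjoin k (Set.range y)) (h0 : ∀ i, h i ≠ 0) :
    AlgebraicIndependent k (fun i => y (j i) * h i ^ e) := by
  classical
  have hex : ∀ i, ∃ P Q : MvPolynomial (Fin n) k,
      h i = MvPolynomial.aeval y P / MvPolynomial.aeval y Q := fun i =>
    (IntermediateField.mem_adjoin_range_iff k y (h i)).1 (hE i)
  choose P Q hPQ using hex
  have hP : ∀ i, MvPolynomial.aeval y (P i) ≠ 0 := by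
    intro i h1
    apply h0 i
    rw [hPQ i, h1, zero_div]
  have hQ : ∀ i, MvPolynomial.aeval y (Q i) ≠ 0 := by
    intro i h1
    apply h0 i
    rw [hPQ i, h1, div_zero]
  have hP' : ∀ i, P i ≠ 0 := fun i h1 => hP i (by rw [h1, map_zero])
  have hQ' : ∀ i, Q i ≠ 0 := fun i h1 => hQ i (by rw [h1, map_zero])
  rw [algebraicIndependent_iff]
  intro p hp
  by_contra hp0
  let D : Fin q → ℕ := fun i => p.degreeOf i
  let T : (Fin q →₀ ℕ) → MvPolynomial (Fin n) k := fun m =>
    MvPolynomial.C (MvPolynomial.coeff m p) *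
      ∏ i, (MvPolynomial.X (j i) ^ (m i) * P i ^ (e * m i) * Q i ^ (e * (D i - m i)))
  have hD : ∀ m ∈ p.support, ∀ i, m i ≤ D i := fun m hm i =>
    MvPolynomial.monomial_le_degreeOf i hm
  have hTeval : ∀ m ∈ p.support, MvPolynomial.aeval y (T m) =
      (∏ i, MvPolynomial.aeval y (Q i) ^ (e * D i)) *
        (algebraMap k K (MvPolynomial.coeff m p) * ∏ i, (y (j i) * h i ^ e) ^ (m i)) := by
    intro m hm
    simp only [T, map_mul, MvPolynomial.aeval_C, map_prod, map_pow, MvPolynomial.aeval_X]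
    rw [mul_left_comm]
    congr 1
    rw [← Finset.prod_mul_distrib]
    apply Finset.prod_congr rfl
    intro i _
    have h1 : MvPolynomial.aeval y (Q i) ^ (e * D i) =
        MvPolynomial.aeval y (Q i) ^ (e * (D i - m i)) * MvPolynomial.aeval y (Q i) ^ (e * m i) := by
      rw [← pow_add]
      congr 1
      rw [← mul_add, Nat.sub_add_cancel (hD m hm i)]
    rw [h1, hPQ i, mul_pow (y (j i)), ← pow_mul, div_pow]
    have h2 : MvPolynomial.aeval y (Q i) ^ (e * m i) ≠ 0 := pow_ne_zero _ (hQ i)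
    field_simp
  have hsum : ∑ m ∈ p.support, T m = 0 := by
    apply (algebraicIndependent_iff_injective_aeval.1 hy)
    rw [map_zero, map_sum, Finset.sum_congr rfl hTeval, ← Finset.mul_sum]
    have : ∑ m ∈ p.support, (algebraMap k K (MvPolynomial.coeff m p) *
        ∏ i, (y (j i) * h i ^ e) ^ (m i)) = 0 := by
      rw [← hp, MvPolynomial.aeval_def, MvPolynomial.eval₂_eq']
    rw [this, mul_zero]
  have hX : ∀ a : Fin n, (MvPolynomial.X a : MvPolynomial (Fin n) k) ≠ 0 := fun a =>
    MvPolynomial.X_ne_zero a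
  refine sum_ne_zero_of_degree (MonomialOrder.lex (σ := Fin n)) p.support ?_ T ?_ ?_ hsum
  · rw [Finset.nonempty_iff_ne_empty, Ne, MvPolynomial.support_eq_empty]
    exact hp0
  · intro m hm
    apply mul_ne_zero
    · rw [Ne, MvPolynomial.C_eq_zero]
      exact MvPolynomial.mem_support_iff.1 hm
    · rw [Finset.prod_ne_zero_iff]
      intro i _
      exact mul_ne_zero (mul_ne_zero (pow_ne_zero _ (hX _)) (pow_ne_zero _ (hP' i)))
        (pow_ne_zero _ (hQ' i))
  · -- degrees
    have hdeg : ∀ m ∈ p.support, (MonomialOrder.lex (σ := Fin n)).degree (T m) =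
        ∑ i, (m i • Finsupp.single (j i) 1 +
          (e * m i) • (MonomialOrder.lex (σ := Fin n)).degree (P i) +
          (e * (D i - m i)) • (MonomialOrder.lex (σ := Fin n)).degree (Q i)) := by
      intro m hm
      have hne : ∀ i : Fin q, (MvPolynomial.X (j i) ^ (m i) * P i ^ (e * m i) *
          Q i ^ (e * (D i - m i)) : MvPolynomial (Fin n) k) ≠ 0 := fun i =>
        mul_ne_zero (mul_ne_zero (pow_ne_zero _ (hX _)) (pow_ne_zero _ (hP' i)))
          (pow_ne_zero _ (hQ' i))
      simp only [T]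
      rw [MonomialOrder.degree_mul
        (by rw [Ne, MvPolynomial.C_eq_zero]; exact MvPolynomial.mem_support_iff.1 hm)
        (Finset.prod_ne_zero_iff.2 fun i _ => hne i), MonomialOrder.degree_C, zero_add,
        MonomialOrder.degree_prod (fun i _ => hne i)]
      apply Finset.sum_congr rfl
      intro i _
      rw [MonomialOrder.degree_mul (mul_ne_zero (pow_ne_zero _ (hX _)) (pow_ne_zero _ (hP' i)))
        (pow_ne_zero _ (hQ' i)), MonomialOrder.degree_mul (pow_ne_zero _ (hX _))
        (pow_ne_zero _ (hP' i)), MonomialOrder.degree_pow, MonomialOrder.degree_pow,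
        MonomialOrder.degree_pow, MonomialOrder.degree_X]
    intro m hm m' hm' heq
    rw [hdeg m hm, hdeg m' hm'] at heq
    let P1 : Fin q → (Fin n →₀ ℕ) := fun i => (MonomialOrder.lex (σ := Fin n)).degree (P i)
    let Q1 : Fin q → (Fin n →₀ ℕ) := fun i => (MonomialOrder.lex (σ := Fin n)).degree (Q i)
    have hδ : (fun i => (m i : ℤ) - (m' i : ℤ)) = (0 : Fin q → ℤ) := by
      apply parity_inj he (fun i l => (P1 i (j l) : ℤ) - (Q1 i (j l) : ℤ))
      intro l
      have h1 := DFunLike.congr_fun heq (j l)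
      rw [Finsupp.finsetSum_apply, Finsupp.finsetSum_apply] at h1
      have h2 : ∀ (mm : Fin q →₀ ℕ), (∀ i, mm i ≤ D i) →
          ((∑ i, (mm i • Finsupp.single (j i) 1 + (e * mm i) • P1 i +
            (e * (D i - mm i)) • Q1 i : Fin n →₀ ℕ) (j l) : ℕ) : ℤ) =
          (mm l : ℤ) + (e : ℤ) * ∑ i, (mm i : ℤ) * ((P1 i (j l) : ℤ) - (Q1 i (j l) : ℤ)) +
            ∑ i, (e : ℤ) * (D i : ℤ) * (Q1 i (j l) : ℤ) := by
        intro mm hmm
        rw [Nat.cast_sum, Finset.mul_sum, add_assoc, ← Finset.sum_add_distrib]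
        have h3 : (mm l : ℤ) = ∑ i, (mm i : ℤ) * (if i = l then 1 else 0) := by
          simp
        rw [h3, ← Finset.sum_add_distrib]
        apply Finset.sum_congr rfl
        intro i _
        simp only [Finsupp.add_apply, Finsupp.smul_apply, smul_eq_mul, Nat.cast_add, Nat.cast_mul,
          Nat.cast_sub (hmm i), Finsupp.single_apply, hj.eq_iff]
        push_cast
        split_ifs <;> push_cast <;> ring
      have h4 := congrArg (Nat.cast : ℕ → ℤ) h1
      erw [h2 m (hD m hm), h2 m' (hD m' hm')] at h4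
      have h5 : ∑ i, ((m i : ℤ) - (m' i : ℤ)) * ((P1 i (j l) : ℤ) - (Q1 i (j l) : ℤ)) =
          ∑ i, (m i : ℤ) * ((P1 i (j l) : ℤ) - (Q1 i (j l) : ℤ)) -
          ∑ i, (m' i : ℤ) * ((P1 i (j l) : ℤ) - (Q1 i (j l) : ℤ)) := by
        rw [← Finset.sum_sub_distrib]
        apply Finset.sum_congr rfl
        intro i _
        ring
      rw [h5]
      linear_combination h4
    ext i
    have := congrFun hδ i
    simp only [Pi.zero_apply] at this
    omega




/-- `M k x r s` is the field `M_r^{s+1}` of the problem: `M k x r 0 = k(x_1, ..., x_n)` and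
`M k x r (s + 1)` is the compositum of all the fields `[t_1, ..., t_r]` with
`t_1, ..., t_r` in `M k x r s`. -/
def M (k : Type*) {K : Type*} [Field k] [Field K] [Algebra k K] {n : ℕ} (x : Fin n → K) (r : ℕ) :
    ℕ → IntermediateField k K
  | 0 => IntermediateField.adjoin k (Set.range x)
  | s + 1 => ⨆ t : {t : Fin r → K // ∀ i, t i ∈ M k x r s}, cl k (Set.range t.1)

lemma cl_le_M {n : ℕ} {x : Fin n → K} {r s : ℕ} (t : Fin r → K) (ht : ∀ i, t i ∈ M k x r s) :
    cl k (Set.range t) ≤ M k x r (s + 1) := by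
  have := le_iSup (fun t : {t : Fin r → K // ∀ i, t i ∈ M k x r s} => cl k (Set.range t.1)) ⟨t, ht⟩
  exact this

lemma M_le_succ {n : ℕ} {x : Fin n → K} {r s : ℕ} (hr : 1 ≤ r) : M k x r s ≤ M k x r (s + 1) := by
  intro a ha
  apply cl_le_M (fun _ : Fin r => a) (fun _ => ha)
  apply subset_cl
  exact ⟨⟨0, hr⟩, rfl⟩

lemma cl_single_le_M {n : ℕ} {x : Fin n → K} {r s : ℕ} (hr : 1 ≤ r) {a : K} (ha : a ∈ M k x r s) :
    cl k {a} ≤ M k x r (s + 1) := by
  refine le_trans ?_ (cl_le_M (fun _ : Fin r => a) (fun _ => ha))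
  apply cl_le_of
  intro b hb
  rw [Set.mem_singleton_iff] at hb
  subst hb
  apply subset_cl
  exact ⟨⟨0, hr⟩, rfl⟩

lemma pow_mem_imp_cl {S : Set K} {a : K} {m : ℕ} (hm : m ≠ 0) (h : a ^ m ∈ cl k S) :
    a ∈ cl k S := by
  apply mem_cl_of_algebraic (le_refl _)
  refine ⟨Polynomial.X ^ m - Polynomial.C ⟨a ^ m, h⟩, ?_, ?_⟩
  · exact Polynomial.X_pow_sub_C_ne_zero (Nat.pos_of_ne_zero hm) _
  · simp [Polynomial.aeval_def]

lemma update_tb {n : ℕ} {v : Fin n → K} (hv : IsTranscendenceBasis k v) (a : Fin n) (b : K)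
    (h : v a ∈ cl k {b}) : IsTranscendenceBasis k (Function.update v a b) := by
  apply tb_of_alg hv
  intro i
  by_cases hi : i = a
  · subst hi
    apply cl_le_of (S := {b}) _ h
    intro c hc
    rw [Set.mem_singleton_iff] at hc
    subst hc
    apply subset_cl
    exact ⟨i, by simp⟩
  · apply subset_cl
    exact ⟨i, by simp [hi]⟩


lemma as_mem_imp_cl {S : Set K} {a : K} {m : ℕ} (hm : 2 ≤ m) (h : a ^ m - a ∈ cl k S) :
    a ∈ cl k S := by
  apply mem_cl_of_algebraic (le_refl _)
  refine ⟨Polynomial.X ^ m - Polynomial.X - Polynomial.C ⟨a ^ m - a, h⟩, ?_, ?_⟩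
  · intro h0
    have h1 := congrArg (fun p => Polynomial.coeff p m) h0
    simp only [Polynomial.coeff_sub, Polynomial.coeff_X_pow, if_true, Polynomial.coeff_zero] at h1
    rw [Polynomial.coeff_X_of_ne_one (by omega), Polynomial.coeff_C_of_ne_zero (by omega)] at h1
    simp at h1
  · simp [Polynomial.aeval_def]

/-- The data of an auxiliary cover used in the proof. -/
def HasCover (k K : Type*) [Field k] [Field K] [Algebra k K] (m : ℕ) : Prop :=
  ∀ (n : ℕ) (y : Fin n → K) (_ : IsTranscendenceBasis k y) (o : Fin n),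
    ∃ (s z : K) (Rot Ref : (K ≃ₐ[k] K) → Prop), s ≠ 0 ∧ s ^ m = y o ∧ z ∈ cl k {y o} ∧
      (∀ r h, Rot r → Ref h → Rot (r * h * r⁻¹ * h⁻¹)) ∧ (∀ r, Rot r → r z ≠ z) ∧
      (∃ g, (∀ i, g (y i) = y i) ∧ Rot g) ∧
      (∀ σ : K ≃ₐ[k] K, σ (y o) = y o → σ s ≠ s → Ref σ)

theorem cover_zero [IsAlgClosed k] [CharZero k] [IsAlgClosed K] : HasCover k K 2 := by
  intro n y hy o
  have hK : CharZero K := charZero_of_injective_algebraMap (algebraMap k K).injective
  have : NeZero ((3 : ℕ) : k) := ⟨by norm_num⟩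
  obtain ⟨ω, hω⟩ := HasEnoughRootsOfUnity.exists_primitiveRoot k 3
  obtain ⟨s, hs⟩ := IsAlgClosed.exists_pow_nat_eq (y o) (show 0 < 2 by norm_num)
  have htr : Transcendental k (y o) := hy.1.transcendental o
  have hs1 : s ≠ 1 := by
    rintro rfl
    apply htr
    rw [← hs, one_pow]
    exact isAlgebraic_one
  have hs2 : s ≠ -1 := by
    rintro rfl
    apply htr
    rw [← hs]
    norm_num
    exact isAlgebraic_one
  have hs0 : s ≠ 0 := by
    rintro rfl
    apply hy.1.ne_zero o
    rw [← hs]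
    norm_num
  have h1s : (1 : K) - s ≠ 0 := sub_ne_zero.2 (Ne.symm hs1)
  have h2s : (1 : K) + s ≠ 0 := by
    intro h
    apply hs2
    linear_combination h
  obtain ⟨z, hz⟩ := IsAlgClosed.exists_pow_nat_eq ((1 + s) / (1 - s)) (show 0 < 3 by norm_num)
  have hz0 : z ≠ 0 := by
    rintro rfl
    have : (1 + s) / (1 - s) ≠ 0 := div_ne_zero h2s h1s
    apply this
    rw [← hz]
    norm_num
  have hz3 : z ^ 3 + 1 ≠ 0 := by
    rw [hz]
    have : (1 + s) / (1 - s) + 1 = 2 / (1 - s) := by
      field_simp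
      ring
    rw [this]
    exact div_ne_zero two_ne_zero h1s
  have hyz : y o = ((z ^ 3 - 1) / (z ^ 3 + 1)) ^ 2 := by
    rw [← hs]
    congr 1
    rw [eq_div_iff hz3, hz]
    field_simp
    ring
  have hzcl : z ∈ cl k {y o} := by
    have hy' : y o ∈ cl k {y o} := subset_cl _ rfl
    have hs' : s ∈ cl k {y o} := pow_mem_imp_cl (m := 2) (by norm_num) (by rw [hs]; exact hy')
    apply pow_mem_imp_cl (m := 3) (by norm_num)
    rw [hz]
    exact div_mem (add_mem (one_mem _) hs') (sub_mem (one_mem _) hs')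
  refine ⟨s, z, fun r => ∃ η : k, η ^ 3 = 1 ∧ η ≠ 1 ∧ r z = algebraMap k K η * z,
    fun h => ∃ ζ : k, ζ ≠ 0 ∧ h z = algebraMap k K ζ * z⁻¹, hs0, hs, hzcl, ?_, ?_, ?_, ?_⟩
  · rintro r h ⟨η, hη3, hη1, hrz⟩ ⟨ζ, hζ0, hhz⟩
    have hη0 : η ≠ 0 := by
      rintro rfl
      simp at hη3
    have hη0' : algebraMap k K η ≠ 0 := by simpa using hη0
    have hζ0' : algebraMap k K ζ ≠ 0 := by simpa using hζ0
    have hrinv : r⁻¹ z = (algebraMap k K η)⁻¹ * z := by
      have : r ((algebraMap k K η)⁻¹ * z) = z := by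
        rw [map_mul, map_inv₀, AlgEquiv.commutes, hrz]
        field_simp
      conv_lhs => rw [← this]
      exact r.symm_apply_apply _
    have hhinv : h⁻¹ z = algebraMap k K ζ * z⁻¹ := by
      have : h (algebraMap k K ζ * z⁻¹) = z := by
        rw [map_mul, map_inv₀, AlgEquiv.commutes, hhz]
        field_simp
      conv_lhs => rw [← this]
      exact h.symm_apply_apply _
    refine ⟨η ^ 2, ?_, ?_, ?_⟩
    · rw [← pow_mul, mul_comm, pow_mul, hη3, one_pow]
    · intro h1
      apply hη1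
      calc η = η ^ 3 * η⁻¹ ^ 2 := by field_simp
        _ = (η ^ 2)⁻¹ := by rw [hη3]; field_simp
        _ = 1 := by rw [h1]; simp
    · rw [AlgEquiv.mul_apply, AlgEquiv.mul_apply, AlgEquiv.mul_apply, hhinv]
      simp only [map_mul, map_inv₀, AlgEquiv.commutes, hrinv, hhz, hrz, map_pow]
      field_simp
  · rintro r ⟨η, hη3, hη1, hrz⟩ h7
    rw [hrz] at h7
    apply hη1
    have h8 : algebraMap k K η = 1 := by
      have : (algebraMap k K η - 1) * z = 0 := by rw [sub_mul, h7]; ring
      rcases mul_eq_zero.1 this with h | h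
      · linear_combination h
      · exact absurd h hz0
    rw [← map_one (algebraMap k K)] at h8
    exact (algebraMap k K).injective h8
  · have hv1 : IsTranscendenceBasis k (Function.update y o z) := by
      apply update_tb hy
      rw [hyz]
      have : z ∈ cl k {z} := subset_cl _ rfl
      exact pow_mem (div_mem (sub_mem (pow_mem this _) (one_mem _))
        (add_mem (pow_mem this _) (one_mem _))) _
    have hω3 : ω ^ 3 = 1 := hω.pow_eq_one
    have hcube : (algebraMap k K ω * z) ^ 3 = z ^ 3 := by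
      rw [mul_pow, ← map_pow, hω3, map_one, one_mul]
    have hv2 : IsTranscendenceBasis k (Function.update y o (algebraMap k K ω * z)) := by
      apply update_tb hy
      rw [hyz, ← hcube]
      have : algebraMap k K ω * z ∈ cl k {algebraMap k K ω * z} := subset_cl _ rfl
      exact pow_mem (div_mem (sub_mem (pow_mem this _) (one_mem _))
        (add_mem (pow_mem this _) (one_mem _))) _
    obtain ⟨g, hg⟩ := exists_aut hv1 hv2
    have hgz : g z = algebraMap k K ω * z := by
      have := hg o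
      simpa using this
    refine ⟨g, ?_, ω, hω3, hω.ne_one (by norm_num), hgz⟩
    intro i
    by_cases hi : i = o
    · rw [hi, hyz, map_pow, map_div₀, map_sub, map_add, map_pow, map_one, hgz, hcube]
    · have := hg i
      simpa [hi] using this
  · intro σ hσ h2
    obtain ⟨χ, hχ, hχs⟩ : ∃ χ : k, χ ^ 2 = 1 ∧ σ s = algebraMap k K χ * s := by
      apply root_scalar (by norm_num) hs0
      rw [← map_pow, hs, hσ]
    have h3 : σ s = -s := by
      rcases sq_eq_one_iff_of_ne_neg_one_or hχ with h | h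
      · exact absurd (by rw [hχs, h, map_one, one_mul]) h2
      · rw [hχs, h, map_neg, map_one, neg_one_mul]
    have h4 : (σ z) ^ 3 = (z⁻¹) ^ 3 := by
      rw [← map_pow, hz, map_div₀, map_add, map_sub, map_one, h3, inv_pow, hz]
      have : (1 : K) - -s ≠ 0 := by rwa [sub_neg_eq_add]
      field_simp
      ring
    obtain ⟨ζ, hζ, hζz⟩ := root_scalar (k := k) (by norm_num) (inv_ne_zero hz0) h4
    refine ⟨ζ, ?_, hζz⟩
    rintro rfl
    norm_num at hζ
where
  sq_eq_one_iff_of_ne_neg_one_or {a : k} (h : a ^ 2 = 1) : a = 1 ∨ a = -1 := sq_eq_one_iff_of_ne_aux h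
  sq_eq_one_iff_of_ne_aux {a : k} (h : a ^ 2 = 1) : a = 1 ∨ a = -1 := by
    have : (a - 1) * (a + 1) = 0 := by linear_combination h
    rcases mul_eq_zero.1 this with h | h
    · left; linear_combination h
    · right; linear_combination h

theorem cover_p [IsAlgClosed k] [IsAlgClosed K] (p m : ℕ) [hp : Fact p.Prime] [CharP k p]
    (hm : 2 ≤ m) (hmp : p ^ (m - 1) ≡ 1 [MOD m]) : HasCover k K m := by
  intro n y hy o
  have hKp : CharP K p := charP_of_injective_algebraMap (algebraMap k K).injective p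
  obtain ⟨Q, hQdef⟩ : ∃ Q, Q = p ^ (m - 1) := ⟨_, rfl⟩
  have hQ2 : 2 ≤ Q := by
    rw [hQdef]
    calc 2 ≤ p := hp.out.two_le
      _ = p ^ 1 := (pow_one p).symm
      _ ≤ p ^ (m - 1) := Nat.pow_le_pow_right hp.out.pos (by omega)
  have hfrobadd : ∀ a b : K, (a + b) ^ Q = a ^ Q + b ^ Q := by
    intro a b
    rw [hQdef]
    exact add_pow_char_pow a b p (m - 1)
  have hfrobsub : ∀ a b : K, (a - b) ^ Q = a ^ Q - b ^ Q := by
    intro a b
    rw [hQdef]
    exact sub_pow_char_pow a b (m - 1)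
  have hpowQ : ∀ χ : k, χ ^ m = 1 → χ ^ Q = χ := by
    intro χ hχ
    obtain ⟨j, hj⟩ := (Nat.modEq_iff_dvd' (show 1 ≤ Q by omega)).1 (hQdef ▸ hmp).symm
    have : Q = m * j + 1 := by omega
    rw [this, pow_succ, pow_mul, hχ, one_pow, one_mul]
  obtain ⟨s, hs⟩ := IsAlgClosed.exists_pow_nat_eq (y o) (show 0 < m by omega)
  have hs0 : s ≠ 0 := by
    rintro rfl
    apply hy.1.ne_zero o
    rw [← hs, zero_pow (by omega)]
  obtain ⟨z, hz⟩ : ∃ z : K, z ^ Q - z = s := by
    obtain ⟨z, hz⟩ := IsAlgClosed.exists_root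
      (Polynomial.X ^ Q - (Polynomial.X + Polynomial.C s) : Polynomial K) (by
        have h1 : (Polynomial.X + Polynomial.C s : Polynomial K).degree <
            (Polynomial.X ^ Q : Polynomial K).degree := by
          rw [Polynomial.degree_X_add_C, Polynomial.degree_X_pow]
          exact_mod_cast (show 1 < Q by omega)
        rw [Polynomial.degree_sub_eq_left_of_degree_lt h1, Polynomial.degree_X_pow]
        exact_mod_cast (show Q ≠ 0 by omega))
    refine ⟨z, ?_⟩
    simp only [Polynomial.IsRoot, Polynomial.eval_sub, Polynomial.eval_pow, Polynomial.eval_X,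
      Polynomial.eval_add, Polynomial.eval_C] at hz
    linear_combination hz
  have hyz : y o = (z ^ Q - z) ^ m := by rw [hz, hs]
  have hzcl : z ∈ cl k {y o} := by
    have hy' : y o ∈ cl k {y o} := subset_cl _ rfl
    have hs' : s ∈ cl k {y o} := pow_mem_imp_cl (m := m) (by omega) (by rw [hs]; exact hy')
    apply as_mem_imp_cl hQ2
    rw [hz]
    exact hs'
  refine ⟨s, z, fun r => ∃ a : k, a ≠ 0 ∧ r z = z + algebraMap k K a,
    fun h => ∃ ζ b : k, ζ ≠ 0 ∧ ζ ≠ 1 ∧ h z = algebraMap k K ζ * z + algebraMap k K b,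
    hs0, hs, hzcl, ?_, ?_, ?_, ?_⟩
  · rintro r h ⟨a, ha0, hrz⟩ ⟨ζ, b, hζ0, hζ1, hhz⟩
    have hζ0' : algebraMap k K ζ ≠ 0 := by simpa using hζ0
    have hrinv : r⁻¹ z = z - algebraMap k K a := by
      have : r (z - algebraMap k K a) = z := by
        rw [map_sub, AlgEquiv.commutes, hrz]
        ring
      conv_lhs => rw [← this]
      exact r.symm_apply_apply _
    have hhinv : h⁻¹ z = (algebraMap k K ζ)⁻¹ * (z - algebraMap k K b) := by
      have : h ((algebraMap k K ζ)⁻¹ * (z - algebraMap k K b)) = z := by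
        rw [map_mul, map_inv₀, map_sub, AlgEquiv.commutes, AlgEquiv.commutes, hhz]
        field_simp
        ring
      conv_lhs => rw [← this]
      exact h.symm_apply_apply _
    refine ⟨(1 - ζ⁻¹) * a, ?_, ?_⟩
    · apply mul_ne_zero _ ha0
      rw [sub_ne_zero]
      intro h1
      apply hζ1
      rw [← inv_inv ζ, ← h1, inv_one]
    · rw [AlgEquiv.mul_apply, AlgEquiv.mul_apply, AlgEquiv.mul_apply, hhinv]
      simp only [map_mul, map_inv₀, map_sub, map_add, AlgEquiv.commutes, hrinv, hhz, hrz, map_one]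
      field_simp
      ring
  · rintro r ⟨a, ha0, hrz⟩ h7
    rw [hrz] at h7
    apply ha0
    have h8 : algebraMap k K a = 0 := by linear_combination h7
    exact (map_eq_zero_iff _ (algebraMap k K).injective).1 h8
  · have hshift : (z + 1) ^ Q - (z + 1) = z ^ Q - z := by
      rw [hfrobadd, one_pow]
      ring
    have hv1 : IsTranscendenceBasis k (Function.update y o z) := by
      apply update_tb hy
      rw [hyz]
      have : z ∈ cl k {z} := subset_cl _ rfl
      exact pow_mem (sub_mem (pow_mem this _) this) _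
    have hv2 : IsTranscendenceBasis k (Function.update y o (z + 1)) := by
      apply update_tb hy
      rw [hyz, ← hshift]
      have : z + 1 ∈ cl k {z + 1} := subset_cl _ rfl
      exact pow_mem (sub_mem (pow_mem this _) this) _
    obtain ⟨g, hg⟩ := exists_aut hv1 hv2
    have hgz : g z = z + 1 := by
      have := hg o
      simpa using this
    refine ⟨g, ?_, 1, one_ne_zero, by rw [hgz, map_one]⟩
    intro i
    by_cases hi : i = o
    · rw [hi, hyz, map_pow, map_sub, map_pow, hgz, hshift]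
    · have := hg i
      simpa [hi] using this
  · intro σ hσ h2
    obtain ⟨χ, hχ, hχs⟩ : ∃ χ : k, χ ^ m = 1 ∧ σ s = algebraMap k K χ * s := by
      apply root_scalar (by omega) hs0
      rw [← map_pow, hs, hσ]
    have hb : (σ z - algebraMap k K χ * z) ^ Q = σ z - algebraMap k K χ * z := by
      rw [hfrobsub, mul_pow, ← map_pow, ← map_pow (algebraMap k K), hpowQ χ hχ]
      have h3 : σ (z ^ Q) - σ z = algebraMap k K χ * s := by
        rw [← map_sub, hz, hχs]
      linear_combination h3 - algebraMap k K χ * hz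
    have hint : IsIntegral k (σ z - algebraMap k K χ * z) := by
      refine ⟨Polynomial.X ^ Q - Polynomial.X, ?_, ?_⟩
      · apply Polynomial.monic_X_pow_sub
        rw [Polynomial.degree_X]
        exact_mod_cast (show 1 < Q by omega)
      · simp [hb]
    obtain ⟨b, hb'⟩ := mem_base_of_alg hint
    refine ⟨χ, b, ?_, ?_, ?_⟩
    · rintro rfl
      rw [zero_pow (by omega)] at hχ
      exact zero_ne_one hχ
    · rintro rfl
      apply h2
      rw [hχs, map_one, one_mul]
    · rw [hb']
      ring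


section construction

variable [IsAlgClosed k] [IsAlgClosed K]

/-- discrete Fourier family -/
noncomputable def yy {n : ℕ} (q : ℕ) (x : Fin n → K) (ζ : k) (b : Fin q → K) : Fin n → K :=
  fun i => if (i : ℕ) < q then ∑ j : Fin q, algebraMap k K (ζ ^ ((i : ℕ) * ((j : ℕ) + 1))) * b j
    else x i

omit [IsAlgClosed k] [IsAlgClosed K] in
lemma b_mem {n q N : ℕ} (hq : q ≤ n) (hqN : q ≤ N) (x : Fin n → K) {ζ : k}
    (hζ : IsPrimitiveRoot ζ N)
    (b : Fin q → K) (j : Fin q) :
    b j ∈ IntermediateField.adjoin k (Set.range (yy q x ζ b)) := by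
  classical
  let V : Matrix (Fin q) (Fin q) k := Matrix.of fun i j => ζ ^ ((i : ℕ) * ((j : ℕ) + 1))
  have hq0 : q ≠ 0 := by
    rintro rfl
    exact j.elim0
  have hζ0 : ζ ≠ 0 := hζ.ne_zero (by omega)
  have hV : V = Matrix.diagonal (fun i : Fin q => ζ ^ (i : ℕ)) *
      Matrix.vandermonde (fun i : Fin q => ζ ^ (i : ℕ)) := by
    ext i j
    rw [Matrix.diagonal_mul, Matrix.vandermonde_apply]
    simp only [V, Matrix.of_apply]
    ring
  have hdet : V.det ≠ 0 := by
    rw [hV, Matrix.det_mul, Matrix.det_diagonal]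
    apply mul_ne_zero
    · rw [Finset.prod_ne_zero_iff]
      intro i _
      exact pow_ne_zero _ hζ0
    · rw [Matrix.det_vandermonde_ne_zero_iff]
      intro i j hij
      exact Fin.ext (hζ.pow_inj (lt_of_lt_of_le i.2 hqN) (lt_of_lt_of_le j.2 hqN) hij)
  have hunit : IsUnit V.det := isUnit_iff_ne_zero.2 hdet
  let VK : Matrix (Fin q) (Fin q) K := V.map (algebraMap k K)
  let WK : Matrix (Fin q) (Fin q) K := V⁻¹.map (algebraMap k K)
  have hWV : WK * VK = 1 := by
    simp only [WK, VK]
    rw [← Matrix.map_mul, Matrix.nonsing_inv_mul V hunit]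
    simp
  have hy : ∀ i : Fin q, yy q x ζ b (Fin.castLE hq i) = (VK.mulVec b) i := by
    intro i
    simp only [yy, Fin.val_castLE, i.2, if_true]
    rfl
  have hb : b j = ∑ i, algebraMap k K (V⁻¹ j i) * yy q x ζ b (Fin.castLE hq i) := by
    have h1 : WK.mulVec (VK.mulVec b) = b := by
      rw [Matrix.mulVec_mulVec, hWV, Matrix.one_mulVec]
    have h2 := congrFun h1 j
    rw [← h2]
    simp only [Matrix.mulVec, dotProduct] at hy ⊢
    apply Finset.sum_congr rfl
    intro i _
    rw [hy i]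
    rfl
  rw [hb]
  apply sum_mem
  intro i _
  apply mul_mem (IntermediateField.algebraMap_mem _ _)
  exact IntermediateField.subset_adjoin _ _ ⟨_, rfl⟩

/-- The main construction. -/
theorem main_aux (ex m : ℕ) [ExpChar k ex] (hm2 : 2 ≤ m) (hexm : Nat.Coprime ex m)
    (hmk : (m : k) ≠ 0) (hcov : HasCover k K m)
    {n : ℕ} (x : Fin n → K) (hx : IsTranscendenceBasis k x) (q : ℕ) (hq1 : 1 ≤ q)
    (hqn : q ≤ n) :
    ∃ z : K, z ∈ M k x 1 2 ∧ z ∈ M k x q 1 ∧ ∀ r, r < q → z ∉ M k x r 1 := by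
  classical
  obtain ⟨N, hqN, hNk⟩ : ∃ N, q ≤ N ∧ (N : k) ≠ 0 := by
    by_cases h : (q : k) = 0
    · refine ⟨q + 1, by omega, ?_⟩
      rw [Nat.cast_succ, h, zero_add]
      exact one_ne_zero
    · exact ⟨q, le_refl _, h⟩
  have : NeZero (N : k) := ⟨hNk⟩
  obtain ⟨ζ, hζ⟩ := HasEnoughRootsOfUnity.exists_primitiveRoot k N
  have hq0 : 0 < q := hq1
  have hn0 : 0 < n := lt_of_lt_of_le hq0 hqn
  let o : Fin n := ⟨0, hn0⟩
  let oq : Fin q := ⟨0, hq0⟩
  obtain ⟨w, hw⟩ := IsAlgClosed.exists_pow_nat_eq (x o) (show 0 < N by omega)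
  have hxo : x o ≠ 0 := hx.1.ne_zero o
  have hw0 : w ≠ 0 := by
    rintro rfl
    rw [zero_pow (by omega)] at hw
    exact hxo hw.symm
  let c : Fin n → K := Function.update x o 1
  have hco : c o = 1 := by simp [c]
  have hcne : ∀ i, i ≠ o → c i = x i := fun i hi => by simp [c, hi]
  have hcF : ∀ i, c i ∈ M k x 1 0 := by
    intro i
    by_cases hi : i = o
    · rw [hi, hco]; exact one_mem _
    · rw [hcne i hi]; exact IntermediateField.subset_adjoin _ _ ⟨i, rfl⟩
  let b : Fin q → K := fun j => c (Fin.castLE hqn j) * w ^ ((j : ℕ) + 1)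
  let y : Fin n → K := yy q x ζ b
  let v : Fin n → K := Function.update x o w
  have hvo : v o = w := by simp [v]
  have hvne : ∀ i, i ≠ o → v i = x i := fun i hi => by simp [v, hi]
  have hv : IsTranscendenceBasis k v := by
    apply update_tb hx
    rw [← hw]
    apply pow_mem
    exact subset_cl _ rfl
  let E : IntermediateField k K := IntermediateField.adjoin k (Set.range v)
  have hwE : w ∈ E := IntermediateField.subset_adjoin _ _ ⟨o, hvo⟩
  have hxE : ∀ i, x i ∈ E := by
    intro i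
    by_cases hi : i = o
    · rw [hi, ← hw]; exact pow_mem hwE _
    · rw [← hvne i hi]; exact IntermediateField.subset_adjoin _ _ ⟨i, rfl⟩
  have hFE : IntermediateField.adjoin k (Set.range x) ≤ E := by
    rw [IntermediateField.adjoin_le_iff]
    rintro _ ⟨i, rfl⟩
    exact hxE i
  have hcE : ∀ i, c i ∈ E := fun i => hFE (hcF i)
  have hbE : ∀ j, b j ∈ E := fun j => mul_mem (hcE _) (pow_mem hwE _)
  have hyE : ∀ i, y i ∈ E := by
    intro i
    simp only [y, yy]
    split_ifs
    · apply sum_mem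
      intro j _
      exact mul_mem (IntermediateField.algebraMap_mem _ _) (hbE j)
    · exact hxE i
  -- E is generated by y
  have hEy : E = IntermediateField.adjoin k (Set.range y) := by
    apply le_antisymm
    · rw [IntermediateField.adjoin_le_iff]
      have hb : ∀ j, b j ∈ IntermediateField.adjoin k (Set.range y) := b_mem hqn hqN x hζ b
      have hw' : w ∈ IntermediateField.adjoin k (Set.range y) := by
        have h1 := hb oq
        have h2 : b oq = w := by
          have : Fin.castLE hqn oq = o := rfl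
          simp only [b, this, hco]
          simp [oq]
        rwa [h2] at h1
      rintro _ ⟨i, rfl⟩
      by_cases hi : i = o
      · rw [hi, hvo]; exact hw'
      · rw [hvne i hi]
        by_cases hiq : (i : ℕ) < q
        · have h1 := hb ⟨i, hiq⟩
          have h2 : Fin.castLE hqn ⟨i, hiq⟩ = i := rfl
          have h3 : x i = b ⟨i, hiq⟩ * (w ^ ((i : ℕ) + 1))⁻¹ := by
            simp only [b, h2, hcne i hi]
            field_simp
          rw [h3]
          exact mul_mem h1 (inv_mem (pow_mem hw' _))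
        · have h1 : y i = x i := by simp [y, yy, hiq]
          rw [← h1]
          exact IntermediateField.subset_adjoin _ _ ⟨i, rfl⟩
    · rw [IntermediateField.adjoin_le_iff]
      rintro _ ⟨i, rfl⟩
      exact hyE i
  have hEalg : ∀ a : K, IsAlgebraic E a := by
    intro a
    have := hv.isAlgebraic_field
    exact Algebra.IsAlgebraic.isAlgebraic a
  have hy : IsTranscendenceBasis k y := by
    apply tb_of_alg hv
    intro i
    apply adjoin_le_cl
    rw [← hEy]
    exact IntermediateField.subset_adjoin _ _ ⟨i, rfl⟩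
  -- automorphisms permuting the y's
  have haut : ∀ i : Fin q, ∃ g : K ≃ₐ[k] K, (∀ a, g (x a) = x a) ∧
      (∀ a ∈ E, g a ∈ E) ∧ g (y o) = y (Fin.castLE hqn i) := by
    intro i
    have hv' : IsTranscendenceBasis k (Function.update x o (algebraMap k K (ζ ^ (i : ℕ)) * w)) := by
      apply update_tb hx
      have h1 : x o = (algebraMap k K (ζ ^ (i : ℕ)) * w) ^ N := by
        rw [mul_pow, hw, ← map_pow, ← pow_mul, mul_comm (i : ℕ), pow_mul, hζ.pow_eq_one, one_pow,
          map_one, one_mul]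
      rw [h1]
      apply pow_mem
      exact subset_cl _ rfl
    obtain ⟨g, hg⟩ := exists_aut hv hv'
    have hgw : g w = algebraMap k K (ζ ^ (i : ℕ)) * w := by
      have := hg o
      rw [hvo] at this
      simpa using this
    have hgx : ∀ a, g (x a) = x a := by
      intro a
      by_cases ha : a = o
      · rw [ha, ← hw, map_pow, hgw, mul_pow, ← map_pow, ← pow_mul, mul_comm (i : ℕ), pow_mul,
          hζ.pow_eq_one, one_pow, map_one, one_mul]
      · have := hg a
        rw [hvne a ha] at this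
        simpa [ha] using this
    have hgc : ∀ a, g (c a) = c a := by
      intro a
      by_cases ha : a = o
      · rw [ha, hco, map_one]
      · rw [hcne a ha, hgx]
    refine ⟨g, hgx, ?_, ?_⟩
    · intro a ha
      have h1 : E.map (g : K →ₐ[k] K) ≤ E := by
        rw [IntermediateField.adjoin_map, IntermediateField.adjoin_le_iff]
        rintro _ ⟨_, ⟨a, rfl⟩, rfl⟩
        by_cases ha : a = o
        · rw [ha, hvo]
          have : (g : K →ₐ[k] K) w = algebraMap k K (ζ ^ (i : ℕ)) * w := hgw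
          rw [this]
          exact mul_mem (IntermediateField.algebraMap_mem _ _) hwE
        · rw [hvne a ha]
          have : (g : K →ₐ[k] K) (x a) = x a := hgx a
          rw [this]
          exact hxE a
      exact h1 ⟨a, ha, rfl⟩
    · have h1 : ∀ j : Fin q, g (b j) = algebraMap k K (ζ ^ ((i : ℕ) * ((j : ℕ) + 1))) * b j := by
        intro j
        simp only [b]
        rw [map_mul, map_pow, hgc, hgw, mul_pow, ← map_pow, ← pow_mul]
        ring
      have h2 : y o = ∑ j, b j := by
        simp only [y, yy, o, hq0, if_true, zero_mul, pow_zero, map_one, one_mul]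
      have h3 : y (Fin.castLE hqn i) =
          ∑ j : Fin q, algebraMap k K (ζ ^ ((i : ℕ) * ((j : ℕ) + 1))) * b j := by
        simp only [y, yy, Fin.val_castLE, i.2, if_true]
      rw [h2, h3, map_sum]
      exact Finset.sum_congr rfl (fun j _ => h1 j)
  -- the element
  obtain ⟨s, z, Rot, Ref, hs0, hs, hzcl, hcomm, hmove, hrotc, hRefc⟩ := hcov n y hy o
  refine ⟨z, ?_, ?_, ?_⟩
  · -- in M_1^3
    have hwM : w ∈ M k x 1 1 := by
      have h1 : x o ∈ M k x 1 0 := IntermediateField.subset_adjoin _ _ ⟨o, rfl⟩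
      apply cl_single_le_M (le_refl 1) h1
      apply pow_mem_imp_cl (m := N) (by omega)
      rw [hw]
      exact subset_cl _ rfl
    have hyM : y o ∈ M k x 1 1 := by
      have h2 : y o = ∑ j, b j := by
        simp only [y, yy, o, hq0, if_true, zero_mul, pow_zero, map_one, one_mul]
      rw [h2]
      apply sum_mem
      intro j _
      exact mul_mem (M_le_succ (le_refl 1) (hcF _)) (pow_mem hwM _)
    exact cl_single_le_M (le_refl 1) hyM hzcl
  · -- in M_q^2
    have h0 : ∀ i : Fin q, x (Fin.castLE hqn i) ∈ M k x q 0 := fun i =>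
      IntermediateField.subset_adjoin _ _ ⟨_, rfl⟩
    apply cl_le_M (fun i : Fin q => x (Fin.castLE hqn i)) h0
    have hxcl : ∀ i : Fin q, x (Fin.castLE hqn i) ∈
        cl k (Set.range fun i : Fin q => x (Fin.castLE hqn i)) := fun i =>
      subset_cl _ ⟨i, rfl⟩
    have hwcl : w ∈ cl k (Set.range fun i : Fin q => x (Fin.castLE hqn i)) := by
      apply pow_mem_imp_cl (m := N) (by omega)
      rw [hw]
      exact hxcl oq
    have hycl : y o ∈ cl k (Set.range fun i : Fin q => x (Fin.castLE hqn i)) := by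
      have h2 : y o = ∑ j, b j := by
        simp only [y, yy, o, hq0, if_true, zero_mul, pow_zero, map_one, one_mul]
      rw [h2]
      apply sum_mem
      intro j _
      apply mul_mem _ (pow_mem hwcl _)
      by_cases hj : Fin.castLE hqn j = o
      · rw [hj, hco]; exact one_mem _
      · rw [hcne _ hj]; exact hxcl j
    refine (cl_le_of (S := {y o}) ?_) hzcl
    intro a ha
    rw [Set.mem_singleton_iff] at ha
    rw [ha]
    exact hycl
  · -- not in M_r^2
    intro r hr hzM
    obtain ⟨A, hA⟩ := IntermediateField.exists_finset_of_mem_iSup hzM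
    let L : {t : Fin r → K // ∀ i, t i ∈ M k x r 0} → IntermediateField k K :=
      fun t => E ⊔ cl k (Set.range t.1)
    have htE : ∀ t : {t : Fin r → K // ∀ i, t i ∈ M k x r 0}, ∀ i, t.1 i ∈ E := fun t i =>
      hFE (t.2 i)
    have hst : ∀ a, ∀ σ : K ≃ₐ[k] K, E ≤ fixF σ → ∀ u ∈ L a, σ u ∈ L a := by
      intro t σ hσ u hu
      apply map_sup_mem _ _ hu
      · intro a ha
        rw [mem_fixF.1 (hσ ha)]
        exact ha
      · intro a ha
        apply map_cl _ ha
        rintro _ ⟨i, rfl⟩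
        exact hσ (htE t i)
    have hrot : ∃ g : K ≃ₐ[k] K, E ≤ fixF g ∧ Rot g := by
      obtain ⟨g, hg1, hg2⟩ := hrotc
      refine ⟨g, ?_, hg2⟩
      rw [hEy, IntermediateField.adjoin_le_iff]
      rintro _ ⟨i, rfl⟩
      exact hg1 i
    have hzA : z ∈ ⨆ a ∈ A, L a := by
      have h1 : (⨆ a ∈ A, cl k (Set.range a.1)) ≤ ⨆ a ∈ A, L a := by
        apply iSup₂_mono
        intro a _
        exact le_sup_right
      exact h1 hA
    obtain ⟨t, _, hst'⟩ := join_arg E hEalg L (fun _ => le_sup_left) hst Rot Ref hcomm hrot z s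
      hmove hmk hs0 (by rw [hs]; exact hyE o)
      (fun σ hσ h => hRefc σ (mem_fixF.1 (hσ (hyE o))) h) A hzA
    -- conjugate
    have hsemi : ∀ i : Fin q, ∃ e ∈ cl k (Set.range t.1), ∃ h ∈ E, h ≠ 0 ∧
        e = y (Fin.castLE hqn i) * h ^ m := by
      intro i
      obtain ⟨g, hgx, hgE, hgy⟩ := haut i
      have h1 : g s ∈ E ⊔ cl k (Set.range t.1) := by
        apply map_sup_mem hgE _ hst'
        intro a ha
        apply map_cl _ ha
        have hF : IntermediateField.adjoin k (Set.range x) ≤ fixF g := by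
          rw [IntermediateField.adjoin_le_iff]
          rintro _ ⟨j, rfl⟩
          exact hgx j
        rintro _ ⟨j, rfl⟩
        exact hF (t.2 j)
      have h2 : (g s) ^ m = y (Fin.castLE hqn i) := by
        rw [← map_pow, hs, hgy]
      have h3 : g s ≠ 0 := by
        rw [Ne, map_eq_zero]
        exact hs0
      obtain ⟨e, he, he0, heE⟩ := semi_inv ex m hm2 hexm E hEalg (Set.range t.1)
        (by rintro _ ⟨j, rfl⟩; exact htE t j) (g s) h3 (by rw [h2]; exact hyE _) h1
      refine ⟨e ^ m, pow_mem he _, e / g s, heE, div_ne_zero he0 h3, ?_⟩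
      rw [← h2, ← mul_pow]
      congr 1
      field_simp
    choose e he h hhE hh0 heq using hsemi
    have hind : AlgebraicIndependent k (fun i => y (Fin.castLE hqn i) * h i ^ m) :=
      algIndep_of_parity hm2 hy.1 (Fin.castLE hqn) (Fin.castLE_injective hqn) h
        (fun i => by rw [← hEy]; exact hhE i) hh0
    have := card_le_of_algIndep hind t.1 (fun i => by rw [← heq i]; exact he i)
    omega

end construction


section final

variable [IsAlgClosed k] [IsAlgClosed K]

omit [IsAlgClosed k] [IsAlgClosed K] in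
lemma M_one_le {n : ℕ} (x : Fin n → K) {r q : ℕ} (hrq : r ≤ q) :
    ∀ s, (1 ≤ r) → M k x r s ≤ M k x q s := by
  intro s hr
  induction s with
  | zero => exact le_refl _
  | succ s ih =>
    apply iSup_le
    rintro ⟨t, ht⟩
    -- pad `t` by repeating its first entry
    let t' : Fin q → K := fun i => if h : (i : ℕ) < r then t ⟨i, h⟩ else t ⟨0, hr⟩
    have ht' : ∀ i, t' i ∈ M k x q s := by
      intro i
      simp only [t']
      split_ifs
      · exact ih (ht _)
      · exact ih (ht _)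
    refine le_trans ?_ (cl_le_M t' ht')
    apply cl_le_of
    rintro _ ⟨i, rfl⟩
    apply subset_cl
    refine ⟨⟨i, lt_of_lt_of_le i.2 hrq⟩, ?_⟩
    simp [t']

/-- The auxiliary exponent and cover exist in every characteristic. -/
lemma exists_cover (k K : Type*) [Field k] [Field K] [Algebra k K] [IsAlgClosed k]
    [IsAlgClosed K] : ∃ (ex m : ℕ) (_ : ExpChar k ex), 2 ≤ m ∧ Nat.Coprime ex m ∧ (m : k) ≠ 0 ∧
      HasCover k K m := by
  obtain ⟨p, hp⟩ := CharP.exists k
  rcases CharP.char_is_prime_or_zero k p with hpp | h0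
  · have : Fact p.Prime := ⟨hpp⟩
    by_cases h2 : p = 2
    · subst h2
      refine ⟨2, 3, inferInstance, by norm_num, by norm_num, ?_, ?_⟩
      · intro h
        have := (CharP.cast_eq_zero_iff k 2 3).1 h
        norm_num at this
      · exact cover_p 2 3 (by norm_num) (by decide)
    · have hodd : ¬ 2 ∣ p := fun h => h2 ((Nat.prime_dvd_prime_iff_eq Nat.prime_two hpp).1 h).symm
      refine ⟨p, 2, inferInstance, le_refl 2, ?_, ?_, ?_⟩
      · rw [Nat.coprime_comm, Nat.Prime.coprime_iff_not_dvd Nat.prime_two]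
        exact hodd
      · intro h
        have := (CharP.cast_eq_zero_iff k p 2).1 h
        exact h2 ((Nat.prime_dvd_prime_iff_eq hpp Nat.prime_two).1 this)
      · apply cover_p p 2 (le_refl 2)
        rw [Nat.ModEq, Nat.add_one_sub_one, pow_one]
        omega
  · subst h0
    have : CharZero k := CharP.charP_to_charZero k
    exact ⟨1, 2, inferInstance, le_refl 2, by norm_num, by norm_num, cover_zero⟩

theorem main_aux' {n : ℕ} (x : Fin n → K) (hx : IsTranscendenceBasis k x) (q : ℕ) (hq1 : 1 ≤ q)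
    (hqn : q ≤ n) :
    ∃ z : K, z ∈ M k x 1 2 ∧ z ∈ M k x q 1 ∧ ∀ r, r < q → z ∉ M k x r 1 := by
  obtain ⟨ex, m, h1, h2, h3, h4, h5⟩ := exists_cover k K
  exact main_aux ex m h2 h3 h4 h5 x hx q hq1 hqn

lemma adjoin_lt_M {n : ℕ} (x : Fin n → K) (hx : IsTranscendenceBasis k x) (hn : 0 < n) :
    M k x 1 0 < M k x 1 1 := by
  refine lt_of_le_of_ne (M_le_succ (le_refl 1)) ?_
  intro heq
  obtain ⟨ex, m, h1, hm2, -, hmk, -⟩ := exists_cover k K
  have : NeZero (m : k) := ⟨hmk⟩
  obtain ⟨ω, hω⟩ := HasEnoughRootsOfUnity.exists_primitiveRoot k m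
  let o : Fin n := ⟨0, hn⟩
  obtain ⟨w, hw⟩ := IsAlgClosed.exists_pow_nat_eq (x o) (show 0 < m by omega)
  have hxo : x o ≠ 0 := hx.1.ne_zero o
  have hw0 : w ≠ 0 := by
    rintro rfl
    rw [zero_pow (by omega)] at hw
    exact hxo hw.symm
  have hwM : w ∈ M k x 1 1 := by
    have h1 : x o ∈ M k x 1 0 := IntermediateField.subset_adjoin _ _ ⟨o, rfl⟩
    apply cl_single_le_M (le_refl 1) h1
    apply pow_mem_imp_cl (m := m) (by omega)
    rw [hw]
    exact subset_cl _ rfl
  rw [← heq] at hwM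
  have hωw : (algebraMap k K ω * w) ^ m = w ^ m := by
    rw [mul_pow, ← map_pow, hω.pow_eq_one, map_one, one_mul]
  have hv : IsTranscendenceBasis k (Function.update x o w) := by
    apply update_tb hx
    rw [← hw]
    apply pow_mem
    exact subset_cl _ rfl
  have hv' : IsTranscendenceBasis k (Function.update x o (algebraMap k K ω * w)) := by
    apply update_tb hx
    rw [← hw, ← hωw]
    apply pow_mem
    exact subset_cl _ rfl
  obtain ⟨g, hg⟩ := exists_aut hv hv'
  have hgw : g w = algebraMap k K ω * w := by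
    have := hg o
    simpa using this
  have hfix : M k x 1 0 ≤ fixF g := by
    unfold M
    rw [IntermediateField.adjoin_le_iff]
    rintro _ ⟨i, rfl⟩
    show g (x i) = x i
    by_cases hi : i = o
    · rw [hi, ← hw, map_pow, hgw, hωw]
    · have := hg i
      simpa [hi] using this
  have h2 := mem_fixF.1 (hfix hwM)
  rw [hgw] at h2
  have h3 : (algebraMap k K ω - 1) * w = 0 := by linear_combination h2
  rcases mul_eq_zero.1 h3 with h | h
  · apply hω.ne_one hm2
    apply (algebraMap k K).injective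
    rw [map_one]
    linear_combination h
  · exact hw0 h

/-- The fields `M_1^2 ⊊ ⋯ ⊊ M_n^2`. -/
theorem M_lt {n : ℕ} (x : Fin n → K) (hx : IsTranscendenceBasis k x) {r q : ℕ} (hr : 1 ≤ r)
    (hrq : r < q) (hqn : q ≤ n) : M k x r 1 < M k x q 1 := by
  refine lt_of_le_of_ne (M_one_le x hrq.le 1 hr) ?_
  intro h
  obtain ⟨z, -, hz, hz'⟩ := main_aux' x hx q (by omega) hqn
  exact hz' r hrq (h ▸ hz)

theorem M_not_le {n : ℕ} (x : Fin n → K) (hx : IsTranscendenceBasis k x) {r : ℕ}
    (hrn : r < n) : ¬ M k x 1 2 ≤ M k x r 1 := by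
  intro h
  obtain ⟨z, hz, -, hz'⟩ := main_aux' x hx n (by omega) le_rfl
  exact hz' r hrn (h hz)

omit [IsAlgClosed k] [IsAlgClosed K] in
theorem M_top {n : ℕ} (x : Fin n → K) (hx : IsTranscendenceBasis k x) : M k x n 1 = ⊤ := by
  rw [eq_top_iff]
  intro a _
  have h := mem_cl_of_tb hx a
  exact cl_le_M (r := n) (s := 0) x
    (fun i => IntermediateField.subset_adjoin _ _ ⟨i, rfl⟩) h

theorem final {n : ℕ} (x : Fin n → K) (hx : IsTranscendenceBasis k x) (hn : 1 ≤ n) :
    (∀ r q, 1 ≤ r → r < q → q ≤ n → M k x r 1 < M k x q 1) ∧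
    (∀ r, r < n → ¬ M k x 1 2 ≤ M k x r 1) ∧
    (∀ r, 1 ≤ r → r < n → M k x r 1 < M k x r 2) ∧
    {L | ∃ r s, 1 ≤ r ∧ r ≤ n ∧ s ≤ 1 ∧ L = M k x r s}.encard = n + 1 ∧
    (n : ℕ∞) + 1 ≤ {L | ∃ r s, 1 ≤ r ∧ r ≤ n ∧ L = M k x r s}.encard := by
  classical
  have h1 : ∀ r q, 1 ≤ r → r < q → q ≤ n → M k x r 1 < M k x q 1 :=
    fun r q hr hrq hqn => M_lt x hx hr hrq hqn
  have h2 : ∀ r, r < n → ¬ M k x 1 2 ≤ M k x r 1 := fun r hrn => M_not_le x hx hrn
  have hcard : {L | ∃ r s, 1 ≤ r ∧ r ≤ n ∧ s ≤ 1 ∧ L = M k x r s}.encard = n + 1 := by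
    let f : Fin (n + 1) → IntermediateField k K := fun i =>
      if (i : ℕ) = 0 then M k x 1 0 else M k x i 1
    have hf0 : ∀ i : Fin (n + 1), (i : ℕ) ≠ 0 → M k x 1 0 < M k x i 1 := by
      intro i hi
      exact lt_of_lt_of_le (adjoin_lt_M x hx (by omega)) (M_one_le x (by omega) 1 (le_refl 1))
    have hlt : ∀ i j : Fin (n + 1), i < j → f i < f j := by
      intro i j hij
      have hij' : (i : ℕ) < (j : ℕ) := hij
      have hj0 : (j : ℕ) ≠ 0 := by omega
      by_cases hi0 : (i : ℕ) = 0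
      · simp only [f, hi0, hj0, if_true, if_false]
        exact hf0 j hj0
      · simp only [f, hi0, hj0, if_false]
        exact h1 _ _ (by omega) hij' (by omega)
    have hinj : Function.Injective f := by
      intro i j hij
      rcases lt_trichotomy i j with h | h | h
      · exact absurd hij (hlt i j h).ne
      · exact h
      · exact absurd hij.symm (hlt j i h).ne
    have hset : {L | ∃ r s, 1 ≤ r ∧ r ≤ n ∧ s ≤ 1 ∧ L = M k x r s} = Set.range f := by
      ext L
      constructor
      · rintro ⟨r, s, hr, hrn, hs, rfl⟩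
        rcases Nat.le_one_iff_eq_zero_or_eq_one.1 hs with rfl | rfl
        · exact ⟨0, by simp [f]; rfl⟩
        · refine ⟨⟨r, by omega⟩, ?_⟩
          have : r ≠ 0 := by omega
          simp [f, this]
      · rintro ⟨i, rfl⟩
        by_cases hi0 : (i : ℕ) = 0
        · exact ⟨1, 0, le_refl 1, hn, by omega, if_pos hi0⟩
        · exact ⟨i, 1, by omega, by omega, le_refl 1, if_neg hi0⟩
    rw [hset, ← Set.image_univ, hinj.injOn.encard_image]
    simp
  refine ⟨h1, h2, ?_, hcard, ?_⟩
  · intro r hr hrn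
    refine lt_of_le_of_ne (M_le_succ hr) ?_
    intro h
    apply h2 r hrn
    rw [h]
    exact M_one_le x hr 2 (le_refl 1)
  · rw [← hcard]
    apply Set.encard_mono
    rintro L ⟨r, s, hr, hrn, _, hL⟩
    exact ⟨r, s, hr, hrn, hL⟩

end final

/-- Lower bounds for the fields `M_r^s` of the problem; recall that
`M k x r s` is the field `M_r^{s+1}`, so that `M k x r 1` is `M_r^2` and `M k x r 2` is `M_r^3`. -/
theorem result {k K : Type*} [Field k] [IsAlgClosed k] [Field K] [IsAlgClosed K]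
    [Algebra k K] {n : ℕ} (x : Fin n → K) (hx : IsTranscendenceBasis k x) (hn : 1 ≤ n) :
    (∀ r q, 1 ≤ r → r < q → q ≤ n → M k x r 1 < M k x q 1) ∧
    (∀ r, 1 ≤ r → r < n → ¬ M k x 1 2 ≤ M k x r 1 ∧ M k x r 1 < M k x r 2) ∧
    (n : ℕ∞) + 1 ≤ {L | ∃ r s, 1 ≤ r ∧ r ≤ n ∧ L = M k x r s}.encard := by
  obtain ⟨h1, h2, h3, -, h5⟩ := final x hx hn
  exact ⟨h1, fun r hr hrn => ⟨h2 r hrn, h3 r hr hrn⟩, h5⟩

end Pool.Agent.Results.MP_0cd237_al.SuperpositionLevels
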